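import Mathlib
import Pool.Agent.H31.Cat2

set_option autoImplicit false

namespace Pool.Agent.Results.MP_5b4ede_co.Full

open Polynomial

/-- Major index of a finite sequence `π(1), …, π(m)` (a list, `π(i+1)` being entry `i`):
the sum of the positions `p` with `π(p) > π(p+1)`. -/
def maj (w : List ℕ) : ℕ :=
  ∑ i ∈ Finset.range (w.length - 1), if w.getD (i + 1) 0 < w.getD i 0 then i + 1 else 0

/-- For `x = (j-1)·2 + k` with `j ≥ 1`, `k ∈ {1,2}`: the tooth `j`. -/
def tooth (x : ℕ) : ℕ := (x - 1) / 2 + 1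

/-- For `x = (j-1)·2 + k` with `j ≥ 1`, `k ∈ {1,2}`: the position `k`. -/
def pos (x : ℕ) : ℕ := (x - 1) % 2 + 1

/-- The strict order `x ≺ y` of `EN_{s,2}`. -/
def Prec (x y : ℕ) : Prop := x ≠ y ∧ tooth y ≤ tooth x ∧ pos x ≤ pos y

open Classical in
/-- `EN_{s,2}(123)`: permutations of `[2s]` in one-line notation that are linear extensions of
`EN_{s,2}` and avoid `123`. -/
noncomputable def EN123 (s : ℕ) : Finset (List ℕ) :=
  (List.range' 1 (2 * s)).permutations.toFinset.filter (fun π =>
    (∀ a b : Fin π.length, Prec (π.get a) (π.get b) → a < b) ∧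
    ¬ ∃ a b c : Fin π.length, a < b ∧ b < c ∧ π.get a < π.get b ∧ π.get b < π.get c)

/-- Catalan words of length `2n` in the letters `0 < 1`. -/
def CW (n : ℕ) : Finset (List ℕ) :=
  (List.replicate n 0 ++ List.replicate n 1).permutations.toFinset.filter
    (fun w => ∀ k ≤ w.length, (w.take k).count 1 ≤ (w.take k).count 0)

lemma EN_eq (s : ℕ) : EN123 s = Pool.Agent.H31.Cat.Q 1 s s s := by
  ext l
  rw [Pool.Agent.H31.Cat.memQ]
  simp only [EN123, Finset.mem_filter, List.mem_toFinset, List.mem_permutations]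
  constructor
  · rintro ⟨h1, h2, _⟩
    have hm : ∀ x, x ∈ l ↔ Pool.Agent.H31.Cat.inQ 1 s s s x := fun x => by
      rw [h1.mem_iff, List.mem_range'_1]; unfold Pool.Agent.H31.Cat.inQ; omega
    refine ⟨h1.nodup_iff.2 List.nodup_range', hm, ?_, le_rfl, by rw [h1.length_eq]; simp; omega⟩
    rw [List.pairwise_iff_get]
    intro i j hij hp
    have m1 := (hm _).1 (List.get_mem l i)
    have m2 := (hm _).1 (List.get_mem l j)
    refine absurd (h2 j i ?_) (not_lt.2 hij.le)
    unfold Pool.Agent.H31.Cat.pr at hp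
    unfold Pool.Agent.H31.Cat.inQ at m1 m2
    unfold Prec tooth pos
    omega
  · rintro ⟨h1, h2, h3, _⟩
    rw [List.pairwise_iff_get] at h3
    refine ⟨(List.perm_ext_iff_of_nodup h1 List.nodup_range').2 (fun x => ?_),
      fun a b hp => ?_, ?_⟩
    · rw [h2, List.mem_range'_1]; unfold Pool.Agent.H31.Cat.inQ; omega
    · rcases lt_trichotomy a b with h | h | h
      · exact h
      · exact absurd (by rw [h]) hp.1
      · exfalso
        have m1 := (h2 _).1 (List.get_mem l a)
        have m2 := (h2 _).1 (List.get_mem l b)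
        have k1 := h3 b a h
        unfold Pool.Agent.H31.Cat.pr at k1
        unfold Pool.Agent.H31.Cat.inQ at m1 m2
        unfold Prec tooth pos at hp
        omega
    · rintro ⟨a, b, c, hab, hbc, h4, h5⟩
      have k1 := h3 a b hab
      have k2 := h3 b c hbc
      have k3 := h3 a c (hab.trans hbc)
      unfold Pool.Agent.H31.Cat.pr at k1 k2 k3
      omega

theorem result (s : ℕ) (_hs : 1 ≤ s) :
    (∑ π ∈ EN123 s, (X : ℤ[X]) ^ maj π) =
      X ^ (2 * s.choose 2) * ∑ w ∈ CW s, (X : ℤ[X]) ^ maj w := by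
  apply Polynomial.map_injective (Int.castRingHom ℝ) Int.cast_injective
  apply Polynomial.eq_of_infinite_eval_eq
  refine (Set.Ioi_infinite (1 : ℝ)).mono (fun q hq => ?_)
  simp only [Set.mem_setOf_eq, Polynomial.map_mul, Polynomial.map_sum, Polynomial.map_pow,
    Polynomial.map_X, eval_mul, eval_pow, eval_X, eval_finset_sum, EN_eq]
  exact Pool.Agent.H31.Cat.main1 q hq s

end Pool.Agent.Results.MP_5b4ede_co.Full
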